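import Pool.Agent.Mg.Fe23604m.G5cdd59
import Pool.Agent.Mg.Fe23604m.G0e5f14

/-!
For almost all D the curve x^3 + y^3 = D, written y^2 = x^3 - 432 D^2, has finite Tate-Shafarevich
group and rank equal to the parity of D; the ranks zero and one both have density one half.
-/

namespace Pool.Agent.Results.MP_e23604_nt.CubicRankSha

open Filter Pool.Agent.MP_e23604_nt

theorem result (r : ℕ) (hr : r ≤ 1) : Tendsto (fun X : ℕ =>
    ({D : ℕ | 1 ≤ D ∧ D ≤ X ∧ par3 D = r ∧ AddGroup.FG (EC D).toAffine.Point ∧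
      Module.finrank ℤ (EC D).toAffine.Point = r ∧ Finite (Sha (EC D))}.ncard : ℝ) / X)
    atTop (nhds (1 / 2)) :=
  M.final_three Y.FINY_ok (X.heegN_of Un.NTL_pf) X.heegM_ok
    (fun D v m h _ p e hm c => PH.heegP_ok D v m h p e hm (by omega)) r hr

end Pool.Agent.Results.MP_e23604_nt.CubicRankSha
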