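import Pool.Agent.Mg.Fe23604m.Ge43efb

/-!
For a positive proportion of the integer quadruples z with square product, counted by distinct
j-invariants, the curve y^2 = x (x - A) (x - B), A = (z0 - z1)(z2 - z3), B = (z0 - z3)(z2 - z1),
has Mordell-Weil rank exactly 2 and Tate-Shafarevich group with trivial 2-primary part.
-/

namespace Pool.Agent.Results.MP_e23604_nt.FullTorsRankTwo

open Pool.Agent.MP_e23604_nt Pool.Agent.MP_e23604_nt.U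

theorem result : ∃ c : ℝ, 0 < c ∧ ∃ B₀ : ℕ, ∀ B : ℕ, B₀ ≤ B →
    c * max (Set.ncard {z : Fin 4 → ℤ | (∀ i, |z i| ≤ B) ∧ ∏ i, z i ≠ 0 ∧ IsSquare (∏ i, z i)} : ℝ)
        ((B : ℝ) ^ 2 * Real.log B ^ 6) ≤
      Set.ncard {j : ℚ | ∃ z : Fin 4 → ℤ, (∀ i, |z i| ≤ B) ∧ ∏ i, z i ≠ 0 ∧ IsSquare (∏ i, z i) ∧
        ∃ _ : (EZ z).IsElliptic, (EZ z).j = j ∧ Module.finrank ℤ (EZ z).toAffine.Point = 2 ∧
          ∀ s ∈ Sha (EZ z), ∀ k : ℕ, 2 ^ k • s = 0 → s = 0} :=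
  U.main

end Pool.Agent.Results.MP_e23604_nt.FullTorsRankTwo
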