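import Pool.Agent.Mg.Fe23604m.G2161c1

/-!
For the curves y^2 = x^3 + D x, the rank plus the corank of the 2-primary part of the
Tate-Shafarevich group is 0 for half of the squarefree D and 1 for half of them, according to an
explicit class of D. When it is 0 the rank is zero and the 2-primary part is finite.
-/

namespace Pool.Agent.Results.MP_e23604_nt.QuarticSelmer

open Filter Pool.Agent.MP_e23604_nt

theorem result (r : ℕ) (hr : r ≤ 1) : Tendsto (fun X : ℕ =>
    ({D : ℤ | |D| ≤ X ∧ Squarefree D ∧ par D = r ∧ ∃ C : ℕ, ∀ k : ℕ,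
      2 ^ (k * r) ≤ (shaTors (EZ D) (2 ^ k)).encard *
        2 ^ (k * Module.finrank ℤ (EZ D).toAffine.Point) ∧
      (shaTors (EZ D) (2 ^ k)).encard * 2 ^ (k * Module.finrank ℤ (EZ D).toAffine.Point) ≤
        C * 2 ^ (k * r)}.ncard : ℝ) / {D : ℤ | |D| ≤ X ∧ Squarefree D}.ncard)
    atTop (nhds (1 / 2)) :=
  R.fifty_ok r hr

end Pool.Agent.Results.MP_e23604_nt.QuarticSelmer
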