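import Pool.Agent.Mg.Fe23604m.Gbbbef2

/-!
For every elliptic curve over Q, given by an integral Weierstrass equation of discriminant Δ, and
every odd prime p, the p-torsion of the Tate-Shafarevich group has order at most
p^(197 p) rad(Δ)^(18 p).
-/

namespace Pool.Agent.Results.MP_e23604_nt.UniBound

open Pool.Agent.MP_e23604_nt

theorem result (V : WeierstrassCurve ℤ) (hΔ : V.Δ ≠ 0) (p : ℕ) (hp : p.Prime) (h2 : p ≠ 2) :
    (shaTors (V.baseChange ℚ) p).Finite ∧ (shaTors (V.baseChange ℚ) p).ncard ≤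
      p ^ (197 * p) * (∏ q ∈ V.Δ.natAbs.primeFactors, q) ^ (18 * p) :=
  L.main_uni V hΔ hp h2

end Pool.Agent.Results.MP_e23604_nt.UniBound
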